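import Mathlib
import Pool.Agent.H12.Multifuncoid

set_option autoImplicit false

namespace Pool.Agent.Results.MP_2da57a_co.NotAtomic

open Pool.Agent.H12.Multifuncoid

theorem result : ¬ ∀ (U n : Type) (f : CM U n), f.1.Nonempty → ∃ a, IsAtomCM a ∧ a ≤ f := by
  intro h
  obtain ⟨a, ha, hle⟩ := h ℕ ℕ ⟨F, F_cm⟩ F_ne
  exact no_atom a ha hle

end Pool.Agent.Results.MP_2da57a_co.NotAtomic
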