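import Mathlib
import Pool.Agent.H12.Multifuncoid

set_option autoImplicit false

namespace Pool.Agent.Results.MP_2da57a_co.NotAtomistic

open Pool.Agent.H12.Multifuncoid

theorem result : ¬ ∀ (U n : Type) (f : CM U n), IsLUB {a | IsAtomCM a ∧ a ≤ f} f := by
  intro h
  have h2 : (⟨F, F_cm⟩ : CM ℕ ℕ) ≤ ⟨∅, by simp [IsCM]⟩ :=
    (h ℕ ℕ ⟨F, F_cm⟩).2 fun a ha => (no_atom a ha.1 ha.2).elim
  obtain ⟨L, hL⟩ := F_ne
  exact h2 hL

end Pool.Agent.Results.MP_2da57a_co.NotAtomistic
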